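import Pool.Agent.N65.GP.Defs2

set_option autoImplicit false

/-! Project GP+ (helper65), part FI: intersections of subspaces of finite dimensional spaces. -/

namespace Pool.Agent.N681.GP2

theorem t_FI : Pool.Agent.N65.GP.S_FI := by
  classical
  intro V _ _ _ I N
  have hw : WellFounded ((· < ·) : Submodule ℝ V → Submodule ℝ V → Prop) := wellFounded_lt
  obtain ⟨P, ⟨J, hJ⟩, hmin⟩ := hw.has_min {P | ∃ J : Finset I, P = ⨅ i ∈ J, N i} ⟨_, ∅, rfl⟩
  refine ⟨J, le_antisymm (le_iInf fun i => ?_) (le_iInf₂ fun i _ => iInf_le _ i)⟩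
  have h1 : ⨅ j ∈ insert i J, N j ≤ ⨅ j ∈ J, N j := by
    rw [Finset.iInf_insert]
    exact inf_le_right
  have h2 : ⨅ j ∈ insert i J, N j ≤ N i := by
    rw [Finset.iInf_insert]
    exact inf_le_left
  have h3 : ¬ (⨅ j ∈ insert i J, N j < P) := hmin _ ⟨insert i J, rfl⟩
  rw [hJ] at h3
  have h4 : ⨅ j ∈ insert i J, N j = ⨅ j ∈ J, N j := by
    by_contra h
    exact h3 (lt_of_le_of_ne h1 h)
  rw [← h4]
  exact h2

end Pool.Agent.N681.GP2
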